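import Pool.Agent.W2helper59.CW.Stm

/-!
# Project CW, piece LOW: lower bound for the chain integral
-/

set_option autoImplicit false

namespace Pool.Agent.W2helper66.CW

open Pool.Agent.W2helper59.CW MeasureTheory Set intervalIntegral

theorem fd_cont (al de ga : ℕ) : Continuous (fd al de ga) := by
  unfold fd
  apply Continuous.mul
  · exact Real.continuous_rpow_const (by positivity)
  · exact (Real.continuous_rpow_const (by positivity)).comp (continuous_const.sub continuous_id)

theorem fd_pos {al de ga : ℕ} {t : ℝ} (h0 : 0 < t) (h1 : t < 1) : 0 < fd al de ga t := by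
  unfold fd
  have : 0 < 1 - t := by linarith
  positivity

theorem fd_nonneg {al de ga : ℕ} {t : ℝ} (h0 : 0 ≤ t) (h1 : t ≤ 1) : 0 ≤ fd al de ga t := by
  unfold fd
  have : 0 ≤ 1 - t := by linarith
  positivity

theorem G_succ (al de ga k : ℕ) (x : ℝ) : G al de ga (k + 1) x =
    ∫ y in x..1, x ^ al * (y - x) ^ de * (1 - y) ^ ga * G al de ga k y := by
  unfold G
  rw [Function.iterate_succ_apply']
  rfl

theorem int_cont (hC : P_CONT) (al de ga k : ℕ) (x : ℝ) :
    Continuous (fun y : ℝ => x ^ al * (y - x) ^ de * (1 - y) ^ ga * G al de ga k y) := by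
  have := (hC al de ga k).1
  fun_prop

theorem G_pos (hC : P_CONT) (al de ga k : ℕ) : ∀ x ∈ Ioo (0 : ℝ) 1, 0 < G al de ga k x := by
  induction k with
  | zero => intro x _; simp [G]
  | succ k ih =>
    intro x hx
    rw [G_succ]
    apply intervalIntegral_pos_of_pos_on ((int_cont hC al de ga k x).intervalIntegrable _ _) _ hx.2
    intro y hy
    have h1 : 0 < y - x := by linarith [hy.1]
    have h2 : 0 < 1 - y := by linarith [hy.2]
    have h3 := ih y ⟨lt_trans hx.1 hy.1, hy.2⟩
    have h4 := hx.1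
    positivity

theorem J_pos (hC : P_CONT) (al de ga k : ℕ) : 0 < J al de ga k := by
  unfold J
  exact intervalIntegral_pos_of_pos_on ((hC al de ga k).1.intervalIntegrable _ _)
    (fun x hx => G_pos hC al de ga k x hx) one_pos

theorem step (hC : P_CONT) {al de ga k : ℕ} {eta r theta A : ℝ} {a : ℕ} (h0 : 0 < eta)
    (hr : 0 < r) (hth : 0 < theta)
    (hker : ∀ x y : ℝ, eta ≤ x → x ≤ y → y ≤ 1 - eta → (∫ t in x..y, fd al de ga t) ≤ theta →
      r * (∫ t in x..y, fd al de ga t) ^ de * fd al de ga y ≤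
        x ^ al * (y - x) ^ de * (1 - y) ^ ga)
    (hA : 0 ≤ A)
    (hind : ∀ y ∈ Icc eta (1 - eta), A * (∫ t in y..(1 - eta), fd al de ga t) ^ a ≤
      G al de ga k y)
    (hbet : ∀ y : ℝ, 0 ≤ y → y ≤ (∫ t in eta..(1 - eta), fd al de ga t) →
      r * ((de.factorial : ℝ) * a.factorial / (a + de + 1).factorial) * y ^ (a + de + 1) ≤
        ∫ v in (0 : ℝ)..(min theta y), v ^ de * (y - v) ^ a) :
    ∀ x ∈ Icc eta (1 - eta), A * (r ^ 2 * ((de.factorial : ℝ) * a.factorial /
      (a + de + 1).factorial)) * (∫ t in x..(1 - eta), fd al de ga t) ^ (a + de + 1) ≤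
      G al de ga (k + 1) x := by
  intro x hx
  set f := fd al de ga with hf
  have hfc : Continuous f := fd_cont al de ga
  have hfi : ∀ u v : ℝ, IntervalIntegrable f volume u v := fun u v => hfc.intervalIntegrable u v
  set V : ℝ → ℝ := fun y => ∫ t in x..y, f t with hV
  set Fx : ℝ := ∫ t in x..(1 - eta), f t with hFx
  have hVc : Continuous V := intervalIntegral.continuous_primitive hfi x
  have hx0 : 0 ≤ x := h0.le.trans hx.1
  have hFx0 : 0 ≤ Fx := by
    apply integral_nonneg hx.2
    intro t ht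
    exact fd_nonneg (hx0.trans ht.1) (by linarith [ht.2])
  have hFxB : Fx ≤ ∫ t in eta..(1 - eta), f t := by
    rw [← integral_add_adjacent_intervals (hfi eta x) (hfi x (1 - eta))]
    have : 0 ≤ ∫ t in eta..x, f t := by
      apply integral_nonneg hx.1
      intro t ht
      exact fd_nonneg (h0.le.trans ht.1) (by linarith [ht.2, hx.2])
    linarith
  obtain ⟨ys, hys, hVys⟩ : ∃ ys ∈ Icc x (1 - eta), V ys = min theta Fx := by
    have h1 := intermediate_value_Icc hx.2 hVc.continuousOn
    have h2 : V x = 0 := by simp [hV]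
    have h3 : V (1 - eta) = Fx := rfl
    rw [h2, h3] at h1
    obtain ⟨ys, hys, h⟩ := h1 (show min theta Fx ∈ Icc 0 Fx from
      ⟨le_min hth.le hFx0, min_le_right _ _⟩)
    exact ⟨ys, hys, h⟩
  have hys1 : ys ≤ 1 := by linarith [hys.2]
  rw [G_succ]
  set g : ℝ → ℝ := fun y => x ^ al * (y - x) ^ de * (1 - y) ^ ga * G al de ga k y with hg
  have hgc : Continuous g := int_cont hC al de ga k x
  have hsplit : ∫ y in x..1, g y = (∫ y in x..ys, g y) + ∫ y in ys..1, g y :=
    (integral_add_adjacent_intervals (hgc.intervalIntegrable _ _)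
      (hgc.intervalIntegrable _ _)).symm
  have hrest : 0 ≤ ∫ y in ys..1, g y := by
    apply integral_nonneg hys1
    intro y hy
    have h1 : 0 ≤ y - x := by linarith [hy.1, hys.1]
    have h2 : 0 ≤ 1 - y := by linarith [hy.2]
    have h3 := (hC al de ga k).2 y ⟨by linarith [hys.1, hy.1], hy.2⟩
    simp only [hg]
    positivity
  have hVmono : ∀ y ∈ Icc x ys, 0 ≤ V y ∧ V y ≤ theta ∧ V y ≤ Fx := by
    intro y hy
    have h1 : 0 ≤ V y := by
      apply integral_nonneg hy.1
      intro t ht
      exact fd_nonneg (hx0.trans ht.1) (by linarith [ht.2, hy.2])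
    have h2 : V y ≤ V ys := by
      have : V ys = V y + ∫ t in y..ys, f t :=
        (integral_add_adjacent_intervals (hfi x y) (hfi y ys)).symm
      rw [this]
      have : 0 ≤ ∫ t in y..ys, f t := by
        apply integral_nonneg hy.2
        intro t ht
        exact fd_nonneg (by linarith [ht.1, hy.1]) (by linarith [ht.2])
      linarith
    rw [hVys] at h2
    exact ⟨h1, h2.trans (min_le_left _ _), h2.trans (min_le_right _ _)⟩
  have hlow : ∫ y in x..ys, (r * A) * ((V y ^ de * (Fx - V y) ^ a) * f y) ≤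
      ∫ y in x..ys, g y := by
    apply integral_mono_on hys.1
    · apply Continuous.intervalIntegrable
      fun_prop
    · exact hgc.intervalIntegrable _ _
    · intro y hy
      obtain ⟨v1, v2, v3⟩ := hVmono y hy
      have hye : y ∈ Icc eta (1 - eta) := ⟨hx.1.trans hy.1, hy.2.trans hys.2⟩
      have k1 := hker x y hx.1 hy.1 hye.2 v2
      have k2 := hind y hye
      have k3 : ∫ t in y..(1 - eta), f t = Fx - V y := by
        have : Fx = V y + ∫ t in y..(1 - eta), f t :=
          (integral_add_adjacent_intervals (hfi x y) (hfi y (1 - eta))).symm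
        linarith
      rw [k3] at k2
      have k4 : 0 ≤ f y := fd_nonneg (by linarith [hye.1]) (by linarith [hye.2])
      have k5 : 0 ≤ A * (Fx - V y) ^ a := by
        have : 0 ≤ Fx - V y := by linarith
        positivity
      have k6 : 0 ≤ x ^ al * (y - x) ^ de * (1 - y) ^ ga := by
        have h1 : 0 ≤ y - x := by linarith [hy.1]
        have h2 : 0 ≤ 1 - y := by linarith [hye.2]
        positivity
      calc (r * A) * ((V y ^ de * (Fx - V y) ^ a) * f y)
          = (r * V y ^ de * f y) * (A * (Fx - V y) ^ a) := by ring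
        _ ≤ (x ^ al * (y - x) ^ de * (1 - y) ^ ga) * G al de ga k y :=
          mul_le_mul k1 k2 k5 k6
  have hsub : ∫ y in x..ys, (V y ^ de * (Fx - V y) ^ a) * f y =
      ∫ v in (0 : ℝ)..(min theta Fx), v ^ de * (Fx - v) ^ a := by
    have h1 := integral_comp_mul_deriv (a := x) (b := ys) (f := V) (f' := f)
      (g := fun v : ℝ => v ^ de * (Fx - v) ^ a)
      (fun y _ => (hfc.integral_hasStrictDerivAt x y).hasDerivAt) hfc.continuousOn
      (by fun_prop)
    have h2 : V x = 0 := by simp [hV]
    rw [h2, hVys] at h1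
    exact h1
  rw [intervalIntegral.integral_const_mul, hsub] at hlow
  have hb := hbet Fx hFx0 hFxB
  have hrA : 0 ≤ r * A := by positivity
  calc A * (r ^ 2 * ((de.factorial : ℝ) * a.factorial / (a + de + 1).factorial)) *
        Fx ^ (a + de + 1)
      = (r * A) * (r * ((de.factorial : ℝ) * a.factorial / (a + de + 1).factorial) *
        Fx ^ (a + de + 1)) := by ring
    _ ≤ (r * A) * ∫ v in (0 : ℝ)..(min theta Fx), v ^ de * (Fx - v) ^ a :=
        mul_le_mul_of_nonneg_left hb hrA
    _ ≤ ∫ y in x..ys, g y := hlow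
    _ ≤ ∫ y in x..1, g y := by rw [hsplit]; linarith

theorem exists_small (q : ℕ → ℝ) (hq : ∀ k, 0 < q k) (K : ℕ) : ∃ c : ℝ, 0 < c ∧ ∀ k < K, c ≤ q k := by
  induction K with
  | zero => exact ⟨1, one_pos, fun k hk => absurd hk (Nat.not_lt_zero k)⟩
  | succ K ih =>
    obtain ⟨c, hc, h⟩ := ih
    refine ⟨min c (q K), lt_min hc (hq K), fun k hk => ?_⟩
    rcases Nat.lt_succ_iff_lt_or_eq.1 hk with h1 | h1
    · exact (min_le_left _ _).trans (h k h1)
    · rw [h1]; exact min_le_right _ _

theorem p_low : P_LOW := by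
  intro hC hK hB al de ga rho hrho0 hrho1
  set f := fd al de ga with hf
  have hfc : Continuous f := fd_cont al de ga
  have hfi : ∀ u v : ℝ, IntervalIntegrable f volume u v := fun u v => hfc.intervalIntegrable u v
  have hBt : 0 < Bt al de ga := by
    unfold Bt
    exact intervalIntegral_pos_of_pos_on (hfi 0 1) (fun x hx => fd_pos hx.1 hx.2) one_pos
  -- the root
  obtain ⟨r, hr0, hr1, hrr⟩ : ∃ r : ℝ, 0 < r ∧ r < 1 ∧ r ^ (2 * (de + 1) + 2) = rho := by
    have hn : (2 * (de + 1) + 2) ≠ 0 := by omega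
    refine ⟨rho ^ ((1 : ℝ) / ((2 * (de + 1) + 2 : ℕ) : ℝ)), by positivity, ?_, ?_⟩
    · exact Real.rpow_lt_one hrho0.le hrho1 (by positivity)
    · rw [← Real.rpow_natCast, ← Real.rpow_mul hrho0.le, one_div,
        inv_mul_cancel₀ (by exact_mod_cast hn), Real.rpow_one]
  -- eta
  obtain ⟨eta, he0, he1, heB⟩ : ∃ eta : ℝ, 0 < eta ∧ eta < 1 / 2 ∧
      r * Bt al de ga < ∫ t in eta..(1 - eta), f t := by
    have hPc : Continuous (fun u : ℝ => ∫ t in (0 : ℝ)..u, f t) :=
      intervalIntegral.continuous_primitive hfi 0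
    have hc : Continuous (fun e : ℝ => ∫ t in e..(1 - e), f t) := by
      have : (fun e : ℝ => ∫ t in e..(1 - e), f t) = fun e : ℝ =>
          (∫ t in (0 : ℝ)..(1 - e), f t) - ∫ t in (0 : ℝ)..e, f t := by
        funext e
        exact (integral_interval_sub_left (hfi _ _) (hfi _ _)).symm
      rw [this]
      exact (hPc.comp (continuous_const.sub continuous_id)).sub hPc
    have hlt : r * Bt al de ga < (fun e : ℝ => ∫ t in e..(1 - e), f t) 0 := by
      simp only [sub_zero]
      change r * Bt al de ga < Bt al de ga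
      nlinarith
    have hev := (hc.continuousAt (x := 0)).eventually (lt_mem_nhds hlt)
    obtain ⟨δ, hδ, hball⟩ := Metric.eventually_nhds_iff.1 hev
    refine ⟨min (δ / 2) (1 / 4), by positivity, ?_, ?_⟩
    · exact (min_le_right _ _).trans_lt (by norm_num)
    · apply hball
      rw [Real.dist_eq, sub_zero, abs_of_pos (by positivity)]
      exact (min_le_left _ _).trans_lt (by linarith)
  obtain ⟨theta, hth, hker⟩ := hK al de ga eta r he0 he1 hr0 hr1
  set Bm : ℝ := ∫ t in eta..(1 - eta), f t with hBm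
  have hBm0 : 0 < Bm := lt_trans (by positivity) heB
  obtain ⟨a₀, ha₀⟩ := hB de theta Bm r hth hBm0 hr0 hr1
  have hFle : ∀ x ∈ Icc eta (1 - eta), 0 ≤ (∫ t in x..(1 - eta), f t) ∧
      (∫ t in x..(1 - eta), f t) ≤ Bm := by
    intro x hx
    constructor
    · apply integral_nonneg hx.2
      intro t ht
      exact fd_nonneg (by linarith [ht.1, hx.1]) (by linarith [ht.2])
    · rw [hBm, ← integral_add_adjacent_intervals (hfi eta x) (hfi x (1 - eta))]
      have : 0 ≤ ∫ t in eta..x, f t := by
        apply integral_nonneg hx.1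
        intro t ht
        exact fd_nonneg (by linarith [ht.1]) (by linarith [ht.2, hx.2])
      linarith
  -- base
  obtain ⟨c₁, hc₁, hbase⟩ : ∃ c₁ : ℝ, 0 < c₁ ∧ ∀ x ∈ Icc eta (1 - eta),
      c₁ * (∫ t in x..(1 - eta), f t) ^ ((de + 1) * a₀) ≤ G al de ga a₀ x := by
    obtain ⟨x₀, hx₀, hmin⟩ := isCompact_Icc.exists_isMinOn (nonempty_Icc.2 (by linarith))
      ((hC al de ga a₀).1.continuousOn (s := Icc eta (1 - eta)))
    have hm : 0 < G al de ga a₀ x₀ := G_pos hC al de ga a₀ x₀
      ⟨by linarith [hx₀.1], by linarith [hx₀.2]⟩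
    refine ⟨G al de ga a₀ x₀ / Bm ^ ((de + 1) * a₀), by positivity, fun x hx => ?_⟩
    have h1 : (∫ t in x..(1 - eta), f t) ^ ((de + 1) * a₀) ≤ Bm ^ ((de + 1) * a₀) :=
      pow_le_pow_left₀ (hFle x hx).1 (hFle x hx).2 _
    calc G al de ga a₀ x₀ / Bm ^ ((de + 1) * a₀) * (∫ t in x..(1 - eta), f t) ^ ((de + 1) * a₀)
        ≤ G al de ga a₀ x₀ / Bm ^ ((de + 1) * a₀) * Bm ^ ((de + 1) * a₀) :=
          mul_le_mul_of_nonneg_left h1 (by positivity)
      _ = G al de ga a₀ x₀ := by field_simp
      _ ≤ G al de ga a₀ x := hmin hx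
  -- induction
  have hmain : ∀ j : ℕ, ∀ x ∈ Icc eta (1 - eta),
      (c₁ * ((de + 1) * a₀).factorial * (r ^ 2 * (de.factorial : ℝ)) ^ j /
        ((de + 1) * (a₀ + j)).factorial) * (∫ t in x..(1 - eta), f t) ^ ((de + 1) * (a₀ + j)) ≤
        G al de ga (a₀ + j) x := by
    intro j
    induction j with
    | zero =>
      intro x hx
      have h1 := hbase x hx
      have h2 : (c₁ * ((de + 1) * a₀).factorial * (r ^ 2 * (de.factorial : ℝ)) ^ 0 /
        ((de + 1) * (a₀ + 0)).factorial) = c₁ := by
        have : (((de + 1) * a₀).factorial : ℝ) ≠ 0 := by positivity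
        simp only [pow_zero, mul_one, Nat.add_zero]
        exact mul_div_cancel_right₀ _ this
      rw [h2]
      exact h1
    | succ j ih =>
      intro x hx
      have hst := step (k := a₀ + j) (a := (de + 1) * (a₀ + j)) hC he0 hr0 hth hker
        (A := c₁ * ((de + 1) * a₀).factorial * (r ^ 2 * (de.factorial : ℝ)) ^ j /
        ((de + 1) * (a₀ + j)).factorial) (by positivity) ih
        (fun y hy0 hy1 => ha₀ _ (by nlinarith) y hy0 hy1) x hx
      have e1 : (de + 1) * (a₀ + j) + de + 1 = (de + 1) * (a₀ + (j + 1)) := by ring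
      rw [e1] at hst
      refine le_trans (le_of_eq ?_) hst
      congr 1
      have h3 : (((de + 1) * (a₀ + j)).factorial : ℝ) ≠ 0 := by positivity
      have h4 : (((de + 1) * (a₀ + (j + 1))).factorial : ℝ) ≠ 0 := by positivity
      rw [pow_succ]
      field_simp
  -- a small interval
  obtain ⟨tau, ht0, ht1, htF⟩ : ∃ tau : ℝ, 0 < tau ∧ eta + tau ≤ 1 - eta ∧
      r * Bm ≤ ∫ t in (eta + tau)..(1 - eta), f t := by
    have hc : Continuous (fun e : ℝ => ∫ t in (eta + e)..(1 - eta), f t) := by
      have : (fun e : ℝ => ∫ t in (eta + e)..(1 - eta), f t) = fun e : ℝ =>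
          (∫ t in (0 : ℝ)..(1 - eta), f t) - ∫ t in (0 : ℝ)..(eta + e), f t := by
        funext e
        exact (integral_interval_sub_left (hfi _ _) (hfi _ _)).symm
      rw [this]
      exact continuous_const.sub ((intervalIntegral.continuous_primitive hfi 0).comp
        (continuous_const.add continuous_id))
    have hlt : r * Bm < (fun e : ℝ => ∫ t in (eta + e)..(1 - eta), f t) 0 := by
      simp only [add_zero]
      change r * Bm < Bm
      nlinarith
    have hev := (hc.continuousAt (x := 0)).eventually (lt_mem_nhds hlt)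
    obtain ⟨δ, hδ, hball⟩ := Metric.eventually_nhds_iff.1 hev
    have hpos : 0 < 1 - 2 * eta := by linarith
    refine ⟨min (δ / 2) (1 - 2 * eta), by positivity, ?_, ?_⟩
    · have := min_le_right (δ / 2) (1 - 2 * eta)
      linarith
    · apply le_of_lt
      apply hball
      rw [Real.dist_eq, sub_zero, abs_of_pos (by positivity)]
      exact (min_le_left _ _).trans_lt (by linarith)
  have hJ : ∀ j : ℕ, tau * ((c₁ * ((de + 1) * a₀).factorial * (r ^ 2 * (de.factorial : ℝ)) ^ j /
        ((de + 1) * (a₀ + j)).factorial) * (r ^ 2 * Bt al de ga) ^ ((de + 1) * (a₀ + j))) ≤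
        J al de ga (a₀ + j) := by
    intro j
    set A := (c₁ * ((de + 1) * a₀).factorial * (r ^ 2 * (de.factorial : ℝ)) ^ j /
        ((de + 1) * (a₀ + j)).factorial) with hA
    have hA0 : 0 ≤ A := by positivity
    have hGc := (hC al de ga (a₀ + j)).1
    have hGi : ∀ u v : ℝ, IntervalIntegrable (G al de ga (a₀ + j)) volume u v :=
      fun u v => hGc.intervalIntegrable u v
    have h1 : ∫ x in eta..(eta + tau), A * (r ^ 2 * Bt al de ga) ^ ((de + 1) * (a₀ + j)) ≤
        ∫ x in eta..(eta + tau), G al de ga (a₀ + j) x := by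
      apply integral_mono_on (by linarith) (continuous_const.intervalIntegrable _ _) (hGi _ _)
      intro x hx
      have hxe : x ∈ Icc eta (1 - eta) := ⟨hx.1, hx.2.trans ht1⟩
      refine le_trans ?_ (hmain j x hxe)
      apply mul_le_mul_of_nonneg_left _ hA0
      apply pow_le_pow_left₀ (by positivity)
      have h2 : (∫ t in (eta + tau)..(1 - eta), f t) ≤ ∫ t in x..(1 - eta), f t := by
        rw [← integral_add_adjacent_intervals (hfi x (eta + tau)) (hfi (eta + tau) (1 - eta))]
        have : 0 ≤ ∫ t in x..(eta + tau), f t := by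
          apply integral_nonneg hx.2
          intro t ht
          exact fd_nonneg (by linarith [ht.1, hx.1]) (by linarith [ht.2])
        linarith
      have h3 : r ^ 2 * Bt al de ga ≤ r * Bm := by nlinarith
      linarith
    rw [intervalIntegral.integral_const, smul_eq_mul] at h1
    have h4 : J al de ga (a₀ + j) = (∫ x in (0 : ℝ)..eta, G al de ga (a₀ + j) x) +
        ((∫ x in eta..(eta + tau), G al de ga (a₀ + j) x) +
        ∫ x in (eta + tau)..1, G al de ga (a₀ + j) x) := by
      rw [integral_add_adjacent_intervals (hGi _ _) (hGi _ _),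
        integral_add_adjacent_intervals (hGi _ _) (hGi _ _)]
      rfl
    have h5 : 0 ≤ ∫ x in (0 : ℝ)..eta, G al de ga (a₀ + j) x :=
      integral_nonneg he0.le (fun x hx => (hC al de ga (a₀ + j)).2 x
        ⟨hx.1, by linarith [hx.2]⟩)
    have h6 : 0 ≤ ∫ x in (eta + tau)..1, G al de ga (a₀ + j) x :=
      integral_nonneg (by linarith) (fun x hx => (hC al de ga (a₀ + j)).2 x
        ⟨by linarith [hx.1], hx.2⟩)
    rw [h4]
    have h7 : (eta + tau - eta) = tau := by ring
    rw [h7] at h1
    linarith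
  -- conclusion
  set X : ℕ → ℝ := fun k => (rho * de.factorial * Bt al de ga ^ (de + 1)) ^ k /
    (((de + 1) * k).factorial : ℝ) with hX
  have hXpos : ∀ k, 0 < X k := by
    intro k
    simp only [hX]
    positivity
  obtain ⟨c₂, hc₂, hsm⟩ := exists_small (fun k => J al de ga k / X k)
    (fun k => div_pos (J_pos hC al de ga k) (hXpos k)) a₀
  set C : ℝ := tau * c₁ * ((de + 1) * a₀).factorial / (r ^ 2 * (de.factorial : ℝ)) ^ a₀ with hCdef
  have hCpos : 0 < C := by positivity
  refine ⟨min c₂ C, lt_min hc₂ hCpos, fun k => ?_⟩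
  have hgoal : min c₂ C * (rho * de.factorial * Bt al de ga ^ (de + 1)) ^ k /
      (((de + 1) * k).factorial : ℝ) = min c₂ C * X k := by
    simp only [hX]
    ring
  rw [hgoal]
  rcases Nat.lt_or_ge k a₀ with hk | hk
  · have h1 : c₂ ≤ J al de ga k / X k := hsm k hk
    calc min c₂ C * X k ≤ c₂ * X k := mul_le_mul_of_nonneg_right (min_le_left _ _) (hXpos k).le
      _ ≤ J al de ga k / X k * X k := mul_le_mul_of_nonneg_right h1 (hXpos k).le
      _ = J al de ga k := div_mul_cancel₀ _ (hXpos k).ne'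
  · obtain ⟨j, rfl⟩ := Nat.exists_eq_add_of_le hk
    calc min c₂ C * X (a₀ + j) ≤ C * X (a₀ + j) :=
          mul_le_mul_of_nonneg_right (min_le_right _ _) (hXpos _).le
      _ = tau * ((c₁ * ((de + 1) * a₀).factorial * (r ^ 2 * (de.factorial : ℝ)) ^ j /
        ((de + 1) * (a₀ + j)).factorial) * (r ^ 2 * Bt al de ga) ^ ((de + 1) * (a₀ + j))) := by
          simp only [hX, hCdef]
          rw [← hrr]
          have e2 : (r ^ (2 * (de + 1) + 2) * (de.factorial : ℝ) * Bt al de ga ^ (de + 1)) ^
              (a₀ + j) = (r ^ 2 * (de.factorial : ℝ)) ^ a₀ * (r ^ 2 * (de.factorial : ℝ)) ^ j *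
              (r ^ 2 * Bt al de ga) ^ ((de + 1) * (a₀ + j)) := by
            rw [← pow_add, pow_mul (r ^ 2 * Bt al de ga), ← mul_pow]
            congr 1
            rw [mul_pow (r ^ 2), ← pow_mul, pow_add]
            ring
          rw [e2]
          have h5 : (r ^ 2 * (de.factorial : ℝ)) ^ a₀ ≠ 0 := by positivity
          have h6 : (((de + 1) * (a₀ + j)).factorial : ℝ) ≠ 0 := by positivity
          field_simp
      _ ≤ J al de ga (a₀ + j) := hJ j

end Pool.Agent.W2helper66.CW
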